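import Mathlib

/-! Effective finiteness for odd numbers `n` divisible by the alternating sum of divisors
`σ̃(n)` : the bound `n < 2 ^ (4 ^ ω(n))`. -/

set_option autoImplicit false

namespace Pool.Agent.H65.AltB

open Finset

/-- `σ̃(p ^ r) = p ^ r - p ^ (r - 1) + ⋯ + (-1) ^ r` -/
def altPow (p r : ℕ) : ℤ := ∑ j ∈ range (r + 1), (-1) ^ j * (p : ℤ) ^ (r - j)

/-- the multiplicative function `σ̃` -/
def altSigma (n : ℕ) : ℤ := ∏ p ∈ n.primeFactors, altPow p (n.factorization p)

/-! ### The greedy lemma -/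

theorem tangent (x y : ℝ) (hx : 1 < x) (hy : 1 < y) :
    1 / (x - 1) * (Real.log x - Real.log y) ≤
      (Real.log (x - 1) - Real.log x) + (Real.log y - Real.log (y - 1)) := by
  have hx1 : 0 < x - 1 := by linarith
  have hy1 : 0 < y - 1 := by linarith
  have hx0 : 0 < x := by linarith
  have hy0 : 0 < y := by linarith
  have h1 : Real.log ((y - 1) * x / ((x - 1) * y)) ≤ (y - 1) * x / ((x - 1) * y) - 1 :=
    Real.log_le_sub_one_of_pos (by positivity)
  have h2 : Real.log (x / y) ≤ x / y - 1 := Real.log_le_sub_one_of_pos (by positivity)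
  rw [Real.log_div (by positivity) (by positivity), Real.log_mul hy1.ne' hx0.ne',
    Real.log_mul hx1.ne' hy0.ne'] at h1
  rw [Real.log_div hx0.ne' hy0.ne'] at h2
  have h3 : (x - 1) * ((y - 1) * x / ((x - 1) * y) - 1) + (x / y - 1) = 0 := by
    field_simp
    ring
  have h4 := mul_le_mul_of_nonneg_left h1 hx1.le
  rw [one_div, inv_mul_le_iff₀ hx1]
  nlinarith [h4, h2, h3]

/-- Greedy lemma for a sorted sequence. -/
theorem greedy (r : ℕ) (x : ℕ → ℕ) (a b : ℕ) (ha : 0 < a)
    (hx1 : ∀ i, i < r → 1 < x i) (hxm : ∀ i, i + 1 < r → x i ≤ x (i + 1))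
    (h1 : b * ∏ i ∈ range r, (x i - 1) ≤ a * ∏ i ∈ range r, x i)
    (h2 : ∀ j, j < r → a * ∏ i ∈ range j, x i < b * ∏ i ∈ range j, (x i - 1)) :
    a * ∏ i ∈ range r, x i < (a + 1) ^ (2 ^ r) := by
  by_contra hcon
  push Not at hcon
  set D : ℕ → ℕ := fun j => a * ∏ i ∈ range j, x i with hD
  set N : ℕ → ℕ := fun j => b * ∏ i ∈ range j, (x i - 1) with hN
  set z : ℕ → ℕ := fun j => (a + 1) ^ (2 ^ j) with hz
  have hD0 : D 0 = a := by simp [hD]
  have hz0 : z 0 = a + 1 := by simp [hz]
  have hzs : ∀ j, z (j + 1) = z j * z j := by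
    intro j
    simp only [hz, pow_succ, pow_mul]
    ring
  have hz2 : ∀ j, 2 ≤ z j := by
    intro j
    have : 1 < (a + 1) ^ (2 ^ j) := Nat.one_lt_pow (by positivity) (by omega)
    exact this
  have hDs : ∀ j, D (j + 1) = D j * x j := by
    intro j; simp only [hD, prod_range_succ]; ring
  have hNs : ∀ j, N (j + 1) = N j * (x j - 1) := by
    intro j; simp only [hN, prod_range_succ]; ring
  have hDpos : ∀ j, j ≤ r → 0 < D j := by
    intro j hj
    simp only [hD]
    exact Nat.mul_pos ha (prod_pos fun i hi => by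
      have := hx1 i (lt_of_lt_of_le (mem_range.1 hi) hj); omega)
  -- the largest `j < r` with `D j < z j`
  have hr : 0 < r := by
    by_contra h0
    have : r = 0 := by omega
    subst this
    have : z 0 ≤ D 0 := hcon
    omega
  have hex : ∃ j, j < r ∧ D j < z j ∧ ∀ m, j < m → m ≤ r → z m ≤ D m := by
    classical
    set Q : Finset ℕ := (range r).filter (fun j => D j < z j) with hQ
    have hne : Q.Nonempty := ⟨0, by simp [hQ, hr, hD0, hz0]⟩
    refine ⟨Q.max' hne, ?_, ?_, ?_⟩
    · have := Q.max'_mem hne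
      simp only [hQ, mem_filter, mem_range] at this
      exact this.1
    · have := Q.max'_mem hne
      simp only [hQ, mem_filter, mem_range] at this
      exact this.2
    · intro m hm hmr
      rcases Nat.lt_or_ge m r with h | h
      · by_contra hc
        push Not at hc
        have : m ∈ Q := by simp [hQ, h, hc]
        have := Q.le_max' m this
        omega
      · have : m = r := by omega
        subst this
        exact hcon
  obtain ⟨j, hjr, hjD, hjm⟩ := hex
  have hNpos : ∀ m, m ≤ r → 0 < N m := by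
    intro m hm
    have hb : 0 < b := by
      have := h2 0 hr
      simp at this
      omega
    simp only [hN]
    exact Nat.mul_pos hb (prod_pos fun i hi => by
      have := hx1 i (lt_of_lt_of_le (mem_range.1 hi) hm); omega)
  -- the functions
  set H : ℕ → ℝ := fun m => Real.log (D m) - Real.log ((z m : ℝ) - 1) with hH
  set G : ℕ → ℝ := fun m => Real.log (N m) - Real.log (D m) +
    (Real.log ((z m : ℝ) - 1) - Real.log (z m)) with hG
  have hzr : ∀ m, (1 : ℝ) < z m := by
    intro m
    have := hz2 m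
    exact_mod_cast (by omega : 1 < z m)
  have step : ∀ m, m < r → 1 / ((x m : ℝ) - 1) * (H (m + 1) - H m) ≤ G (m + 1) - G m := by
    intro m hm
    have hxm1 : (1 : ℝ) < x m := by exact_mod_cast hx1 m hm
    have hDm : (0 : ℝ) < D m := by exact_mod_cast hDpos m hm.le
    have hNm : (0 : ℝ) < N m := by exact_mod_cast hNpos m hm.le
    have e1 : Real.log (D (m + 1)) = Real.log (D m) + Real.log (x m) := by
      rw [hDs]; push_cast
      rw [Real.log_mul hDm.ne' (by linarith)]
    have e2 : Real.log (N (m + 1)) = Real.log (N m) + Real.log ((x m : ℝ) - 1) := by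
      rw [hNs]
      rw [Nat.cast_mul, Nat.cast_sub (hx1 m hm).le, Nat.cast_one]
      rw [Real.log_mul hNm.ne' (by linarith)]
    have hzm := hzr m
    have e3 : Real.log ((z (m + 1) : ℝ) - 1) =
        Real.log ((z m : ℝ) - 1) + Real.log ((z m : ℝ) + 1) := by
      rw [hzs]; push_cast
      rw [← Real.log_mul (by linarith) (by linarith)]
      congr 1; ring
    have e4 : Real.log (z (m + 1)) = Real.log (z m) + Real.log (z m) := by
      rw [hzs]; push_cast
      rw [Real.log_mul (by linarith) (by linarith)]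
    have ht := tangent (x m) ((z m : ℝ) + 1) hxm1 (by linarith)
    have e5 : (z m : ℝ) + 1 - 1 = z m := by ring
    rw [e5] at ht
    have e6 : H (m + 1) - H m = Real.log (x m) - Real.log ((z m : ℝ) + 1) := by
      simp only [hH]; rw [e1, e3]; ring
    have e7 : G (m + 1) - G m = (Real.log ((x m : ℝ) - 1) - Real.log (x m)) +
        (Real.log ((z m : ℝ) + 1) - Real.log (z m)) := by
      simp only [hG]; rw [e1, e2, e3, e4]; ring
    rw [e6, e7]
    exact ht
  have hHj : H j ≤ 0 := by
    have hDj : (0 : ℝ) < D j := by exact_mod_cast hDpos j hjr.le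
    have : (D j : ℝ) ≤ (z j : ℝ) - 1 := by
      have : (D j : ℝ) + 1 ≤ z j := by exact_mod_cast hjD
      linarith
    have := Real.log_le_log hDj this
    simp only [hH]; linarith
  have hHm : ∀ m, j < m → m ≤ r → 0 < H m := by
    intro m hm hmr
    have h3 := hjm m hm hmr
    have h4 : (z m : ℝ) - 1 < D m := by
      have : (z m : ℝ) ≤ D m := by exact_mod_cast h3
      linarith
    have := Real.log_lt_log (by have := hzr m; linarith) h4
    simp only [hH]; linarith
  have key : ∀ t, j + t + 1 ≤ r →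
      1 / ((x (j + t) : ℝ) - 1) * (H (j + t + 1) - H j) ≤ G (j + t + 1) - G j := by
    intro t
    induction t with
    | zero =>
      intro h
      exact step j (by omega)
    | succ t ih =>
      intro h
      have ih' := ih (by omega)
      have hs := step (j + (t + 1)) (by omega)
      have hx2 : x (j + t) ≤ x (j + t + 1) := hxm (j + t) (by omega)
      have hx3 : (1 : ℝ) < x (j + t) := by exact_mod_cast hx1 (j + t) (by omega)
      have hx4 : (x (j + t) : ℝ) ≤ x (j + t + 1) := by exact_mod_cast hx2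
      have hc : 1 / ((x (j + t + 1) : ℝ) - 1) ≤ 1 / ((x (j + t) : ℝ) - 1) :=
        one_div_le_one_div_of_le (by linarith) (by linarith)
      have hpos : 0 ≤ H (j + t + 1) - H j := by
        have := hHm (j + t + 1) (by omega) (by omega)
        linarith
      have h5 := mul_le_mul_of_nonneg_right hc hpos
      have e8 : j + (t + 1) = j + t + 1 := by omega
      rw [e8] at hs ⊢
      nlinarith [h5, ih', hs]
  have hfin := key (r - 1 - j) (by omega)
  have e9 : j + (r - 1 - j) + 1 = r := by omega
  rw [e9] at hfin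
  have hxl : (1 : ℝ) < x (j + (r - 1 - j)) := by exact_mod_cast hx1 _ (by omega)
  have hGr : G j < G r := by
    have h6 : 0 < 1 / ((x (j + (r - 1 - j)) : ℝ) - 1) * (H r - H j) := by
      apply mul_pos
      · apply one_div_pos.2; linarith
      · have := hHm r hjr le_rfl; linarith
    linarith
  have hGr0 : G r ≤ 0 := by
    have hNr : (0 : ℝ) < N r := by exact_mod_cast hNpos r le_rfl
    have h7 : (N r : ℝ) ≤ D r := by exact_mod_cast h1
    have h8 := Real.log_le_log hNr h7
    have h9 := Real.log_le_log (by have := hzr r; linarith : 0 < (z r : ℝ) - 1)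
      (by linarith : (z r : ℝ) - 1 ≤ z r)
    simp only [hG]; linarith
  have hGj0 : 0 ≤ G j := by
    have hDj : (0 : ℝ) < D j := by exact_mod_cast hDpos j hjr.le
    have h10 : (D j : ℝ) + 1 ≤ N j := by exact_mod_cast h2 j hjr
    have h11 := Real.log_le_log (by linarith) h10
    have h12 : (D j : ℝ) ≤ (z j : ℝ) - 1 := by
      have : (D j : ℝ) + 1 ≤ z j := by exact_mod_cast hjD
      linarith
    have hzj := hzr j
    have h13 : Real.log (D j) + Real.log (z j) ≤ Real.log ((D j : ℝ) + 1) +
        Real.log ((z j : ℝ) - 1) := by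
      rw [← Real.log_mul hDj.ne' (by linarith), ← Real.log_mul (by linarith) (by linarith)]
      apply Real.log_le_log (mul_pos hDj (by linarith))
      nlinarith
    simp only [hG]; linarith
  linarith

/-- A finite set can be listed in the order of a function. -/
theorem sorted {ι : Type} [DecidableEq ι] (x : ι → ℕ) : ∀ (r : ℕ) (W : Finset ι), W.card = r →
    W.Nonempty → ∃ φ : ℕ → ι, (∀ i, i < r → φ i ∈ W) ∧
      (∀ i j, i < r → j < r → φ i = φ j → i = j) ∧ ∀ i j, i ≤ j → j < r → x (φ i) ≤ x (φ j)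
  | 0, W, h, hne => by
    rw [card_eq_zero] at h
    subst h
    exact absurd hne (by simp)
  | r + 1, W, h, hne => by
    obtain ⟨w, hw, hmax⟩ := W.exists_max_image x hne
    have hc : (W.erase w).card = r := by rw [card_erase_of_mem hw, h]; rfl
    rcases (W.erase w).eq_empty_or_nonempty with he | hne'
    · rw [he, card_empty] at hc
      subst hc
      refine ⟨fun _ => w, fun _ _ => hw, fun i j hi hj _ => by omega, fun _ _ _ _ => le_rfl⟩
    · obtain ⟨φ, h1, h2, h3⟩ := sorted x r (W.erase w) hc hne'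
      refine ⟨fun i => if i < r then φ i else w, ?_, ?_, ?_⟩
      · intro i hi
        by_cases hir : i < r
        · simp only [hir, if_true]
          exact mem_of_mem_erase (h1 i hir)
        · simp only [hir, if_false]
          exact hw
      · intro i j hi hj hij
        by_cases hir : i < r
        · by_cases hjr : j < r
          · simp only [hir, hjr, if_true] at hij
            exact h2 i j hir hjr hij
          · simp only [hir, hjr, if_true, if_false] at hij
            exact absurd hij (ne_of_mem_erase (h1 i hir))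
        · by_cases hjr : j < r
          · simp only [hir, hjr, if_true, if_false] at hij
            exact absurd hij.symm (ne_of_mem_erase (h1 j hjr))
          · omega
      · intro i j hij hj
        by_cases hjr : j < r
        · have hir : i < r := by omega
          simp only [hir, hjr, if_true]
          exact h3 i j hij hjr
        · by_cases hir : i < r
          · simp only [hir, hjr, if_true, if_false]
            exact hmax _ (mem_of_mem_erase (h1 i hir))
          · simp only [hir, hjr, if_false]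
            exact le_rfl

/-- Greedy lemma for a finite set. -/
theorem greedySet {ι : Type} [DecidableEq ι] (s : Finset ι) (x : ι → ℕ) (a b : ℕ) (ha : 0 < a)
    (hab : a < b) (hx : ∀ i ∈ s, 1 < x i)
    (h : b * ∏ i ∈ s, (x i - 1) ≤ a * ∏ i ∈ s, x i) :
    ∃ W ⊆ s, W.Nonempty ∧ a * ∏ i ∈ W, x i < (a + 1) ^ (2 ^ W.card) := by
  set Q : Finset (Finset ι) :=
    s.powerset.filter (fun W => b * ∏ i ∈ W, (x i - 1) ≤ a * ∏ i ∈ W, x i) with hQ
  have hne : Q.Nonempty := ⟨s, by simp [hQ, h]⟩
  obtain ⟨W, hW, hmin⟩ := Q.exists_min_image (fun W => W.card) hne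
  have hW' := hW
  simp only [hQ, mem_filter, mem_powerset] at hW'
  obtain ⟨hWs, hWle⟩ := hW'
  have hWne : W.Nonempty := by
    rw [nonempty_iff_ne_empty]
    intro he
    subst he
    simp at hWle
    omega
  refine ⟨W, hWs, hWne, ?_⟩
  obtain ⟨φ, h1, h2, h3⟩ := sorted x W.card W rfl hWne
  have hinj : ∀ j, j ≤ W.card → Set.InjOn φ (range j : Finset ℕ) := by
    intro j hj i hi k hk hik
    have hi' := mem_range.1 (mem_coe.1 hi)
    have hk' := mem_range.1 (mem_coe.1 hk)
    exact h2 i k (by omega) (by omega) hik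
  have hprod : ∀ j, j ≤ W.card → ∀ f : ι → ℕ,
      ∏ i ∈ range j, f (φ i) = ∏ w ∈ (range j).image φ, f w := by
    intro j hj f
    rw [prod_image (hinj j hj)]
  have himg : (range W.card).image φ = W := by
    apply eq_of_subset_of_card_le
    · intro w hw
      obtain ⟨i, hi, rfl⟩ := mem_image.1 hw
      exact h1 i (mem_range.1 hi)
    · rw [card_image_of_injOn (hinj _ le_rfl), card_range]
  have hmain := greedy W.card (fun i => x (φ i)) a b ha
    (fun i hi => hx _ (hWs (h1 i hi))) (fun i hi => h3 i (i + 1) (by omega) hi)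
    (by
      rw [hprod _ le_rfl (fun w => x w - 1), hprod _ le_rfl x, himg]
      exact hWle)
    (by
      intro j hj
      rw [hprod _ hj.le (fun w => x w - 1), hprod _ hj.le x]
      by_contra hc
      push Not at hc
      have hmem : (range j).image φ ∈ Q := by
        simp only [hQ, mem_filter, mem_powerset]
        refine ⟨?_, hc⟩
        intro w hw
        obtain ⟨i, hi, rfl⟩ := mem_image.1 hw
        exact hWs (h1 i (by have := mem_range.1 hi; omega))
      have h4 := hmin _ hmem
      rw [card_image_of_injOn (hinj _ hj.le), card_range] at h4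
      omega)
  rw [hprod _ le_rfl x, himg] at hmain
  exact hmain

/-- The two-sided bookkeeping. -/
theorem book {ι : Type} [DecidableEq ι] (P : Finset ι) (p q g : ι → ℕ) (c n : ℕ)
    (hp : ∀ i ∈ P, 2 ≤ p i ∧ Odd (p i)) (hq : ∀ i ∈ P, 2 ≤ q i)
    (hg : ∀ i ∈ P, (p i + 1) * g i = p i * q i + 1) (hgo : ∀ i ∈ P, Odd (g i))
    (hc : Odd c) (hn1 : n = ∏ i ∈ P, q i) (hn2 : n = c * ∏ i ∈ P, g i) :
    ∀ (m : ℕ) (K S T : Finset ι), Disjoint K S → Disjoint K T → Disjoint S T →
      K ∪ S ∪ T = P → 2 * T.card + S.card = m →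
      n + 1 ≤ (min ((∏ i ∈ K, q i) * ∏ i ∈ S, (p i + 1)) (c * (∏ i ∈ K, g i) * ∏ i ∈ S, p i) + 1) ^
        (2 ^ m) := by
  intro m
  induction m using Nat.strong_induction_on with
  | _ m ih =>
  intro K S T hKS hKT hST hU hm
  set A := (∏ i ∈ K, q i) * ∏ i ∈ S, (p i + 1) with hA
  set B := c * (∏ i ∈ K, g i) * ∏ i ∈ S, p i with hB
  have hKP : K ⊆ P := by rw [← hU]; exact subset_union_left.trans subset_union_left
  have hSP : S ⊆ P := by rw [← hU]; exact subset_union_right.trans subset_union_left
  have hTP : T ⊆ P := by rw [← hU]; exact subset_union_right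
  have hcpos : 0 < c := hc.pos
  have hqpos : ∀ i ∈ P, 0 < q i := fun i hi => by have := hq i hi; omega
  have hgpos : ∀ i ∈ P, 0 < g i := fun i hi => (hgo i hi).pos
  have hppos : ∀ i ∈ P, 0 < p i := fun i hi => by have := (hp i hi).1; omega
  have hgq : ∀ i ∈ P, g i < q i := by
    intro i hi
    have h1 := hg i hi
    have h2 := hq i hi
    by_contra hcon
    push Not at hcon
    have h3 := Nat.mul_le_mul_left (p i + 1) hcon
    nlinarith
  have hApos : 0 < A := Nat.mul_pos (prod_pos fun i hi => hqpos i (hKP hi))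
    (prod_pos fun i _ => Nat.succ_pos _)
  have hBpos : 0 < B := Nat.mul_pos (Nat.mul_pos hcpos (prod_pos fun i hi => hgpos i (hKP hi)))
    (prod_pos fun i hi => hppos i (hSP hi))
  have hKST : Disjoint (K ∪ S) T := disjoint_union_left.2 ⟨hKT, hST⟩
  -- the equation
  have hstar : A * (∏ i ∈ S, (p i * q i)) * ∏ i ∈ T, q i =
      B * (∏ i ∈ S, (p i * q i + 1)) * ∏ i ∈ T, g i := by
    have e1 : ∏ i ∈ S, (p i * q i + 1) = (∏ i ∈ S, (p i + 1)) * ∏ i ∈ S, g i := by
      rw [← prod_mul_distrib]
      exact prod_congr rfl fun i hi => (hg i (hSP hi)).symm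
    have e2 : n = (∏ i ∈ K, q i) * (∏ i ∈ S, q i) * ∏ i ∈ T, q i := by
      rw [hn1, ← hU, prod_union hKST, prod_union hKS]
    have e3 : n = c * ((∏ i ∈ K, g i) * (∏ i ∈ S, g i) * ∏ i ∈ T, g i) := by
      rw [hn2, ← hU, prod_union hKST, prod_union hKS]
    rw [e1, prod_mul_distrib, hA, hB]
    calc (∏ i ∈ K, q i) * (∏ i ∈ S, (p i + 1)) * ((∏ i ∈ S, p i) * ∏ i ∈ S, q i) * ∏ i ∈ T, q i
        = (∏ i ∈ S, (p i + 1)) * (∏ i ∈ S, p i) *
          ((∏ i ∈ K, q i) * (∏ i ∈ S, q i) * ∏ i ∈ T, q i) := by ring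
      _ = (∏ i ∈ S, (p i + 1)) * (∏ i ∈ S, p i) *
          (c * ((∏ i ∈ K, g i) * (∏ i ∈ S, g i) * ∏ i ∈ T, g i)) := by rw [← e2, ← e3]
      _ = _ := by ring
  have hTq : 0 < ∏ i ∈ T, q i := prod_pos fun i hi => hqpos i (hTP hi)
  have hTg : 0 < ∏ i ∈ T, g i := prod_pos fun i hi => hgpos i (hTP hi)
  have hSpq : 0 < ∏ i ∈ S, (p i * q i) :=
    prod_pos fun i hi => Nat.mul_pos (hppos i (hSP hi)) (hqpos i (hSP hi))
  have hTgq : ∏ i ∈ T, g i ≤ ∏ i ∈ T, q i :=
    prod_le_prod' fun i hi => (hgq i (hTP hi)).le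
  rcases lt_trichotomy A B with hlt | heq | hgt
  · -- `A < B`
    have hmin : min A B = A := min_eq_left hlt.le
    rw [hmin]
    have hle : B * ∏ i ∈ T, (p i + 1 - 1) ≤ A * ∏ i ∈ T, (p i + 1) := by
      have e4 : ∏ i ∈ T, (p i * q i + 1) = (∏ i ∈ T, (p i + 1)) * ∏ i ∈ T, g i := by
        rw [← prod_mul_distrib]
        exact prod_congr rfl fun i hi => (hg i (hTP hi)).symm
      have e5 : (∏ i ∈ T, p i) * ∏ i ∈ T, q i ≤ ∏ i ∈ T, (p i * q i + 1) := by
        rw [← prod_mul_distrib]
        exact prod_le_prod' fun i _ => Nat.le_succ _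
      have e6 : ∏ i ∈ S, (p i * q i) ≤ ∏ i ∈ S, (p i * q i + 1) :=
        prod_le_prod' fun i _ => Nat.le_succ _
      simp only [Nat.add_sub_cancel]
      have h7 : 0 < (∏ i ∈ S, (p i * q i)) * ∏ i ∈ T, q i := Nat.mul_pos hSpq hTq
      refine Nat.le_of_mul_le_mul_right ?_ h7
      calc B * (∏ i ∈ T, p i) * ((∏ i ∈ S, (p i * q i)) * ∏ i ∈ T, q i)
          = B * (∏ i ∈ S, (p i * q i)) * ((∏ i ∈ T, p i) * ∏ i ∈ T, q i) := by ring
        _ ≤ B * (∏ i ∈ S, (p i * q i + 1)) * ∏ i ∈ T, (p i * q i + 1) :=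
            Nat.mul_le_mul (Nat.mul_le_mul_left _ e6) e5
        _ = (B * (∏ i ∈ S, (p i * q i + 1)) * ∏ i ∈ T, g i) * ∏ i ∈ T, (p i + 1) := by
            rw [e4]; ring
        _ = (A * (∏ i ∈ S, (p i * q i)) * ∏ i ∈ T, q i) * ∏ i ∈ T, (p i + 1) := by rw [hstar]
        _ = A * (∏ i ∈ T, (p i + 1)) * ((∏ i ∈ S, (p i * q i)) * ∏ i ∈ T, q i) := by ring
    obtain ⟨W, hWT, hWne, hWlt⟩ := greedySet T (fun i => p i + 1) A B hApos hlt
      (fun i hi => by have := (hp i (hTP hi)).1; omega) hle
    have hcard : (T \ W).card + W.card = T.card := by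
      rw [card_sdiff_add_card_eq_card hWT]
    have hWpos := hWne.card_pos
    have hSW : Disjoint S W := disjoint_of_subset_right hWT hST
    have hcard2 : (S ∪ W).card = S.card + W.card := card_union_of_disjoint hSW
    have hih := ih (m - W.card) (by omega) K (S ∪ W) (T \ W)
      (disjoint_union_right.2 ⟨hKS, disjoint_of_subset_right hWT hKT⟩)
      (disjoint_of_subset_right sdiff_subset hKT)
      (disjoint_union_left.2 ⟨disjoint_of_subset_right sdiff_subset hST, disjoint_sdiff⟩)
      (by
        rw [← hU, union_assoc, union_assoc, union_assoc, union_sdiff_of_subset hWT])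
      (by omega)
    have hA' : (∏ i ∈ K, q i) * ∏ i ∈ S ∪ W, (p i + 1) = A * ∏ i ∈ W, (p i + 1) := by
      rw [prod_union hSW, hA]; ring
    rw [hA'] at hih
    calc n + 1 ≤ _ := hih
      _ ≤ (A * (∏ i ∈ W, (p i + 1)) + 1) ^ (2 ^ (m - W.card)) :=
          Nat.pow_le_pow_left (Nat.add_le_add_right (min_le_left _ _) 1) _
      _ ≤ ((A + 1) ^ (2 ^ W.card)) ^ (2 ^ (m - W.card)) := Nat.pow_le_pow_left hWlt _
      _ = (A + 1) ^ (2 ^ m) := by
          rw [← pow_mul, ← pow_add]
          congr 2
          omega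
  · -- `A = B`
    rcases S.eq_empty_or_nonempty with hS | hS
    · rcases T.eq_empty_or_nonempty with hT | hT
      · subst hS
        subst hT
        simp only [card_empty, mul_zero, add_zero] at hm
        subst hm
        have hKP' : K = P := by rw [← hU]; simp
        have e8 : A = n := by rw [hA, hn1, hKP']; simp
        rw [← heq, e8, min_self]
        simp
      · exfalso
        subst hS
        have h9 : ∏ i ∈ T, g i < ∏ i ∈ T, q i :=
          prod_lt_prod_of_nonempty (fun i hi => hgpos i (hTP hi)) (fun i hi => hgq i (hTP hi)) hT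
        rw [heq] at hstar
        simp only [prod_empty, mul_one] at hstar
        have := Nat.eq_of_mul_eq_mul_left hBpos hstar
        omega
    · exfalso
      have hAe : Even A := by
        obtain ⟨i, hi⟩ := hS
        rw [hA]
        apply Even.mul_left
        rw [← mul_prod_erase S _ hi]
        exact ((hp i (hSP hi)).2.add_one).mul_right _
      have hBo : Odd B := by
        rw [hB]
        refine (hc.mul ?_).mul ?_
        · exact prod_induction g Odd (fun _ _ => Odd.mul) odd_one fun i hi => hgo i (hKP hi)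
        · exact prod_induction p Odd (fun _ _ => Odd.mul) odd_one fun i hi => (hp i (hSP hi)).2
      rw [heq] at hAe
      exact (Nat.not_even_iff_odd.2 hBo) hAe
  · -- `B < A`
    have hmin : min A B = B := min_eq_right hgt.le
    rw [hmin]
    have hle : A * ∏ i ∈ S, (p i * q i + 1 - 1) ≤ B * ∏ i ∈ S, (p i * q i + 1) := by
      simp only [Nat.add_sub_cancel]
      refine Nat.le_of_mul_le_mul_right ?_ hTq
      rw [hstar]
      exact Nat.mul_le_mul_left _ hTgq
    obtain ⟨W, hWS, hWne, hWlt⟩ := greedySet S (fun i => p i * q i + 1) B A hBpos hgt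
      (fun i hi => by
        have := Nat.mul_pos (hppos i (hSP hi)) (hqpos i (hSP hi)); omega) hle
    have hcard : (S \ W).card + W.card = S.card := by
      rw [card_sdiff_add_card_eq_card hWS]
    have hWpos := hWne.card_pos
    have hKW : Disjoint K W := disjoint_of_subset_right hWS hKS
    have hih := ih (m - W.card) (by omega) (K ∪ W) (S \ W) T
      (disjoint_union_left.2 ⟨disjoint_of_subset_right sdiff_subset hKS, disjoint_sdiff⟩)
      (disjoint_union_left.2 ⟨hKT, disjoint_of_subset_left hWS hST⟩)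
      (disjoint_of_subset_left sdiff_subset hST)
      (by
        rw [← hU, union_assoc K W, union_sdiff_of_subset hWS])
      (by omega)
    have hB' : c * (∏ i ∈ K ∪ W, g i) * ∏ i ∈ S \ W, p i ≤ B * ∏ i ∈ W, (p i * q i + 1) := by
      rw [prod_union hKW, hB]
      have e10 : ∏ i ∈ W, g i ≤ ∏ i ∈ W, (p i * q i + 1) := by
        apply prod_le_prod'
        intro i hi
        rw [← hg i (hSP (hWS hi))]
        exact Nat.le_mul_of_pos_left _ (Nat.succ_pos _)
      have e11 : ∏ i ∈ S \ W, p i ≤ ∏ i ∈ S, p i :=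
        prod_le_prod_of_subset_of_one_le' sdiff_subset
          (fun i hi _ => hppos i (hSP hi))
      calc c * ((∏ i ∈ K, g i) * ∏ i ∈ W, g i) * ∏ i ∈ S \ W, p i
          = c * (∏ i ∈ K, g i) * (∏ i ∈ S \ W, p i) * ∏ i ∈ W, g i := by ring
        _ ≤ c * (∏ i ∈ K, g i) * (∏ i ∈ S, p i) * ∏ i ∈ W, (p i * q i + 1) :=
          Nat.mul_le_mul (Nat.mul_le_mul_left _ e11) e10
    calc n + 1 ≤ _ := hih
      _ ≤ (B * (∏ i ∈ W, (p i * q i + 1)) + 1) ^ (2 ^ (m - W.card)) :=
          Nat.pow_le_pow_left (Nat.add_le_add_right ((min_le_right _ _).trans hB') 1) _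
      _ ≤ ((B + 1) ^ (2 ^ W.card)) ^ (2 ^ (m - W.card)) := Nat.pow_le_pow_left hWlt _
      _ = (B + 1) ^ (2 ^ m) := by
          rw [← pow_mul, ← pow_add]
          congr 2
          omega

/-! ### The function `σ̃` -/

theorem altPow_succ (p r : ℕ) : altPow p (r + 1) = (p : ℤ) * altPow p r + (-1) ^ (r + 1) := by
  unfold altPow
  rw [sum_range_succ _ (r + 1), mul_sum]
  congr 1
  · apply sum_congr rfl
    intro j hj
    have hj' : j ≤ r := by have := mem_range.1 hj; omega
    have : r + 1 - j = (r - j) + 1 := by omega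
    rw [this, pow_succ]
    ring
  · simp

/-- `(p + 1) σ̃(p ^ r) = p ^ (r + 1) + (-1) ^ r`. -/
theorem altPow_mul (p r : ℕ) : ((p : ℤ) + 1) * altPow p r = (p : ℤ) ^ (r + 1) + (-1) ^ r := by
  induction r with
  | zero => simp [altPow]
  | succ r ih =>
    rw [altPow_succ, mul_add, mul_left_comm, ih]
    ring

theorem altPow_odd (p r : ℕ) (hp : Odd p) : (Odd (altPow p r) ↔ Even r) := by
  induction r with
  | zero => simp [altPow]
  | succ r ih =>
    have hp' : Odd (p : ℤ) := by exact_mod_cast hp
    rw [altPow_succ, Int.odd_add, Int.odd_mul, Nat.even_add_one, ih]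
    have h1 : ¬ Even ((-1 : ℤ) ^ (r + 1)) := by
      rw [Int.not_even_iff_odd]
      exact Odd.pow (by decide)
    simp only [hp', true_and, h1, iff_false]

/-- For an odd `n` divisible by `σ̃(n)` all exponents are even. -/
theorem even_exp (n : ℕ) (hn : Odd n) (h : altSigma n ∣ (n : ℤ)) :
    ∀ p ∈ n.primeFactors, Odd p ∧ Even (n.factorization p) := by
  intro p hp
  have hpn : p ∣ n := Nat.dvd_of_mem_primeFactors hp
  have hpo : Odd p := hn.of_dvd_nat hpn
  refine ⟨hpo, ?_⟩
  have h1 : altPow p (n.factorization p) ∣ altSigma n :=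
    dvd_prod_of_mem (fun p => altPow p (n.factorization p)) hp
  have hn' : Odd (n : ℤ) := by exact_mod_cast hn
  have h2 : Odd (altPow p (n.factorization p)) := by
    obtain ⟨t, ht⟩ := h1.trans h
    rw [ht, Int.odd_mul] at hn'
    exact hn'.1
  exact (altPow_odd p _ hpo).1 h2

/-- every odd `n` divisible by `σ̃(n)` satisfies `n < 2 ^ (4 ^ ω(n))`. -/
theorem main (n : ℕ) (hn : Odd n) (h : altSigma n ∣ (n : ℤ)) :
    n < 2 ^ (4 ^ n.primeFactors.card) := by
  have hev := even_exp n hn h
  have hn0 : n ≠ 0 := hn.pos.ne'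
  set g : ℕ → ℕ := fun p => (altPow p (n.factorization p)).toNat with hg
  have hmul : ∀ p ∈ n.primeFactors, ((p : ℤ) + 1) * altPow p (n.factorization p) =
      (p : ℤ) * (p : ℤ) ^ n.factorization p + 1 := by
    intro p hp
    rw [altPow_mul, (hev p hp).2.neg_one_pow, pow_succ]
    ring
  have hpos : ∀ p ∈ n.primeFactors, 0 < altPow p (n.factorization p) := by
    intro p hp
    have h1 := hmul p hp
    have h2 : 0 < ((p : ℤ) + 1) * altPow p (n.factorization p) := by rw [h1]; positivity
    exact pos_of_mul_pos_right h2 (by positivity)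
  have hgz : ∀ p ∈ n.primeFactors, ((g p : ℕ) : ℤ) = altPow p (n.factorization p) := by
    intro p hp
    simp only [hg]
    exact Int.toNat_of_nonneg (hpos p hp).le
  have hgs : ((∏ p ∈ n.primeFactors, g p : ℕ) : ℤ) = altSigma n := by
    unfold altSigma
    push_cast
    exact prod_congr rfl hgz
  have hdvd : (∏ p ∈ n.primeFactors, g p) ∣ n := by
    rw [← Int.natCast_dvd_natCast, hgs]
    exact h
  obtain ⟨c, hc⟩ := hdvd
  have hbook := book n.primeFactors (fun p => p) (fun p => p ^ n.factorization p) g c n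
    (fun p hp => ⟨(Nat.prime_of_mem_primeFactors hp).two_le, (hev p hp).1⟩)
    (fun p hp => by
      have h1 : 2 ≤ p := (Nat.prime_of_mem_primeFactors hp).two_le
      have h2 : n.factorization p ≠ 0 := by
        have := Nat.support_factorization n ▸ hp
        exact Finsupp.mem_support_iff.1 this
      exact h1.trans (Nat.le_self_pow h2 p))
    (fun p hp => by
      have h1 := hmul p hp
      rw [← hgz p hp] at h1
      exact_mod_cast h1)
    (fun p hp => by
      have h1 := (altPow_odd p (n.factorization p) (hev p hp).1).2 (hev p hp).2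
      rw [← hgz p hp] at h1
      exact_mod_cast h1)
    (by
      rw [hc] at hn
      exact (Nat.odd_mul.1 hn).2)
    (Nat.prod_factorization_pow_eq_self hn0).symm
    (by rw [mul_comm]; exact hc)
    (2 * n.primeFactors.card) ∅ ∅ n.primeFactors (by simp) (by simp) (by simp) (by simp) (by simp)
  have hcpos : 1 ≤ c := by
    rcases Nat.eq_zero_or_pos c with h0 | h0
    · rw [h0, mul_zero] at hc
      exact absurd hc hn0
    · exact h0
  simp only [prod_empty, mul_one] at hbook
  rw [min_eq_left hcpos] at hbook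
  have e : (4 : ℕ) ^ n.primeFactors.card = 2 ^ (2 * n.primeFactors.card) := by
    rw [pow_mul]; norm_num
  rw [e]
  exact hbook

end Pool.Agent.H65.AltB
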