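import Pool.Agent.AltSig37.Sig
import Pool.Agent.H65.AltB

/-! The bound `n < 2 ^ (4 ^ ω(n))` for the function `Pool.Agent.AltSig37.sig`. -/

set_option autoImplicit false

namespace Pool.Agent.H65.AltB37

theorem bound_dvd (n : ℕ) (hn : Odd n) (h : AltSig37.sig n ∣ (n : ℤ)) :
    n < 2 ^ (4 ^ n.primeFactors.card) :=
  AltB.main n hn h

theorem bound_eq (K n : ℕ) (hn : Odd n) (h : (n : ℤ) = K * AltSig37.sig n) :
    n < 2 ^ (4 ^ n.primeFactors.card) :=
  AltB.main n hn ⟨(K : ℤ), by rw [h]; exact mul_comm _ _⟩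

end Pool.Agent.H65.AltB37
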